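import Pool.Agent.H648.Q.Defs2
import Pool.Graph.R_seed8.W78.GA.SC

/-!
Project Q648 (helper648), stage 2, task NI1 (helper190): the `T`-inequality with two functions,
imaginary case. Adapted from the stage 1 file of helper263.
-/

set_option autoImplicit false

namespace Pool.Agent.H190.Q648

open Finset Filter
open Pool.Agent.H376R2.MR (FK Fj lam)
open Pool.Agent.W78.GA
open Pool.Agent.W78.GS (Pm)
open Pool.Agent.H648.Q (UU)
open Pool.Agent.H648.Q2 (IsChi FSI S_TINI)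

section general

variable {g : ℕ → ℤ} {t c : ℤ}

/-- the sum over pairs of different signs in terms of the polynomials, with a weight -/
lemma rsum_eq (hg : Pm g) (hD : t ^ 2 < 4 * c) (s : Finset (Qd t c)) (hs0 : ∀ z ∈ s, z ≠ 0)
    (f : Qd t c → ℝ) {u : Qd t c} (hu : u ≠ 0) (K : ℕ) :
    ∑ z ∈ s, ∑ z' ∈ s,
      f z * f z' * (1 - (g (nm z) : ℝ) * (g (nm (u * z')) : ℝ)) *
        Fj K (ang z - ang (u * z')) =
    ∑ k ∈ FK K, (1 - |(k : ℝ)| / K) * ((ps k u).re *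
      (‖DPG s (fun z => (f z : ℂ)) k‖ ^ 2 -
        (g (nm u) : ℝ) * ‖DPG s (fun z => (((g (nm z) : ℝ) * f z : ℝ) : ℂ)) k‖ ^ 2)) := by
  have h1 := dsum_eq hD s hs0 f f hu K
  have h2 := dsum_eq hD s hs0 (fun z => (g (nm z) : ℝ) * f z)
    (fun z => (g (nm z) : ℝ) * f z) hu K
  have h3 : ∑ z ∈ s, ∑ z' ∈ s,
      f z * f z' * (1 - (g (nm z) : ℝ) * (g (nm (u * z')) : ℝ)) *
        Fj K (ang z - ang (u * z')) =
      ∑ z ∈ s, ∑ z' ∈ s, f z * f z' * Fj K (ang z - ang (u * z')) -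
      (g (nm u) : ℝ) * ∑ z ∈ s, ∑ z' ∈ s, ((g (nm z) : ℝ) * f z) *
        ((g (nm z') : ℝ) * f z') * Fj K (ang z - ang (u * z')) := by
    rw [mul_sum, ← sum_sub_distrib]
    refine sum_congr rfl fun z hz => ?_
    rw [mul_sum, ← sum_sub_distrib]
    refine sum_congr rfl fun z' hz' => ?_
    rw [hg.nm_mul (nm_pos hD hu).ne' (nm_pos hD (hs0 z' hz')).ne']
    push_cast
    ring
  rw [h3, h1, h2, mul_sum, ← sum_sub_distrib]
  refine sum_congr rfl fun k _ => ?_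
  have h4 : ∀ D : ℂ, (D * (starRingEnd ℂ) D * (starRingEnd ℂ) (ps k u)).re =
      (ps k u).re * ‖D‖ ^ 2 := by
    intro D
    rw [Complex.mul_conj, Complex.normSq_eq_norm_sq, Complex.re_ofReal_mul, Complex.conj_re]
    ring
  rw [h4, h4]
  ring

/-- the lower bound, for arbitrary functions of the frequency -/
lemma low_bound (hg : Pm g) (A G : ℤ → ℂ) {u₀ : Qd t c}
    (hgu : g (nm u₀) = -1) {K : ℕ} (hKn : 1 ≤ K) :
    2 * ‖A 0‖ ^ 2 ≤
      ∑ k ∈ FK K, (1 - |(k : ℝ)| / K) * ((ps k (1 : Qd t c)).re *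
      (‖A k‖ ^ 2 - (g (nm (1 : Qd t c)) : ℝ) * ‖G k‖ ^ 2)) +
      ∑ k ∈ FK K, (1 - |(k : ℝ)| / K) * ((ps k u₀).re *
      (‖A k‖ ^ 2 - (g (nm u₀) : ℝ) * ‖G k‖ ^ 2)) +
      2 * ∑ k ∈ (FK K).erase 0, ‖G k‖ ^ 2 := by
  have hKpos : (0 : ℝ) < K := by exact_mod_cast hKn
  rw [← sum_add_distrib]
  have h0 : (0 : ℤ) ∈ FK K := by
    rw [FK, Finset.mem_Ioo]
    omega
  rw [← Finset.add_sum_erase _ _ h0, mul_sum, add_assoc, ← sum_add_distrib]
  have h1 : (1 - |((0 : ℤ) : ℝ)| / K) * ((ps 0 (1 : Qd t c)).re *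
    (‖A 0‖ ^ 2 - (g (nm (1 : Qd t c)) : ℝ) * ‖G 0‖ ^ 2)) +
    (1 - |((0 : ℤ) : ℝ)| / K) * ((ps 0 u₀).re *
    (‖A 0‖ ^ 2 - (g (nm u₀) : ℝ) * ‖G 0‖ ^ 2)) = 2 * ‖A 0‖ ^ 2 := by
    rw [nm_one, hg.one, hgu, ps_zero, ps_zero]
    simp
    ring
  rw [h1]
  refine le_add_of_nonneg_right (sum_nonneg fun k hk => ?_)
  rw [mem_erase, FK, Finset.mem_Ioo] at hk
  have hw0 : 0 ≤ 1 - |(k : ℝ)| / K := by
    rw [sub_nonneg, div_le_one hKpos]
    rw [abs_le]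
    constructor
    · have : ((-(K : ℤ) : ℤ) : ℝ) < (k : ℝ) := by exact_mod_cast hk.2.1
      push_cast at this
      linarith
    · have : (k : ℝ) < ((K : ℤ) : ℝ) := by exact_mod_cast hk.2.2
      push_cast at this
      linarith
  have hw1 : 1 - |(k : ℝ)| / K ≤ 1 := by
    have : 0 ≤ |(k : ℝ)| / K := by positivity
    linarith
  have hps1 : ps k (1 : Qd t c) = 1 := by
    have := ps_natCast (t := t) (c := c) (n := 1) one_pos k
    simpa using this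
  have hc1 : (ps k u₀).re ≤ 1 := by
    have := (Complex.abs_re_le_norm (ps k u₀)).trans (norm_ps_le _ k)
    exact (abs_le.1 this).2
  have hc2 : -1 ≤ (ps k u₀).re := by
    have := (Complex.abs_re_le_norm (ps k u₀)).trans (norm_ps_le _ k)
    exact (abs_le.1 this).1
  rw [nm_one, hg.one, hgu, hps1]
  push_cast
  rw [Complex.one_re]
  set γ := (ps k u₀).re
  set W := 1 - |(k : ℝ)| / K
  have hA : 0 ≤ ‖A k‖ ^ 2 := by positivity
  have hB : 0 ≤ ‖G k‖ ^ 2 := by positivity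
  have e : W * (1 * (‖A k‖ ^ 2 - 1 * ‖G k‖ ^ 2)) +
      W * (γ * (‖A k‖ ^ 2 - -1 * ‖G k‖ ^ 2)) + 2 * ‖G k‖ ^ 2 =
      W * (1 + γ) * ‖A k‖ ^ 2 + (W * (1 + γ) + 2 * (1 - W)) * ‖G k‖ ^ 2 := by
    ring
  rw [e]
  have : 0 ≤ W * (1 + γ) := mul_nonneg hw0 (by linarith)
  have : 0 ≤ W * (1 + γ) + 2 * (1 - W) := by linarith
  positivity

/-- the pair sum in terms of the pairs of different sign and equal character -/
lemma rsum_le (hg : Pm g) (hD : t ^ 2 < 4 * c) {A : ℕ} {χ : ℤ → ℤ}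
    (s : Finset (Qd t c)) (hs0 : ∀ z ∈ s, z ≠ 0) {u : Qd t c}
    (hs1 : ∀ z ∈ s, χ z.re = 1 ∨ χ z.re = -1)
    (hs2 : ∀ z ∈ s, χ (u * z).re = χ z.re) (_hA : 1 ≤ A)
    {Y : ℝ} (hY : 0 < Y) (K : ℕ) :
    (∑ z ∈ s, ∑ z' ∈ s,
      bg Y z * bg Y z' * (1 - (g (nm z) : ℝ) * (g (nm (u * z')) : ℝ)) *
        Fj K (ang z - ang (u * z'))) +
    (∑ z ∈ s, ∑ z' ∈ s, ((χ z.re : ℝ) * bg Y z) * ((χ z'.re : ℝ) * bg Y z') *
      (1 - (g (nm z) : ℝ) * (g (nm (u * z')) : ℝ)) * Fj K (ang z - ang (u * z'))) ≤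
    4 * (Real.exp 1 / Y) ^ 2 * (open scoped Classical in
    ∑ z ∈ s, ∑ z' ∈ s,
      (if g (nm z) ≠ g (nm (u * z')) ∧ χ z.re = χ (u * z').re then
        Fj K (ang z - ang (u * z')) else 0)) := by
  classical
  rw [mul_sum, ← sum_add_distrib]
  refine sum_le_sum fun z hz => ?_
  rw [mul_sum, ← sum_add_distrib]
  refine sum_le_sum fun z' hz' => ?_
  have hF := Pool.Agent.H376R2.MR.Fj_nonneg K (ang z - ang (u * z'))
  have ha := bg_le' hD hY (hs0 z hz)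
  have hb := bg_le' hD hY (hs0 z' hz')
  have ha0 := bg_nonneg Y z
  have hb0 := bg_nonneg Y z'
  have hab : bg Y z * bg Y z' ≤ (Real.exp 1 / Y) ^ 2 := by
    rw [pow_two]
    exact mul_le_mul ha hb hb0 (ha0.trans ha)
  have hab0 : 0 ≤ bg Y z * bg Y z' := mul_nonneg ha0 hb0
  have hgz : g (nm z) = 1 ∨ g (nm z) = -1 := hg.val _
  have hgu' : g (nm (u * z')) = 1 ∨ g (nm (u * z')) = -1 := hg.val _
  have e : bg Y z * bg Y z' * (1 - (g (nm z) : ℝ) * (g (nm (u * z')) : ℝ)) *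
        Fj K (ang z - ang (u * z')) + ((χ z.re : ℝ) * bg Y z) * ((χ z'.re : ℝ) * bg Y z') *
      (1 - (g (nm z) : ℝ) * (g (nm (u * z')) : ℝ)) * Fj K (ang z - ang (u * z')) =
      (1 - (g (nm z) : ℝ) * (g (nm (u * z')) : ℝ)) * (1 + (χ z.re : ℝ) * (χ z'.re : ℝ)) *
        (bg Y z * bg Y z' * Fj K (ang z - ang (u * z'))) := by ring
  rw [e, hs2 z' hz']
  have hprod := mul_le_mul_of_nonneg_right hab hF
  by_cases h : g (nm z) ≠ g (nm (u * z')) ∧ χ z.re = χ z'.re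
  · rw [if_pos h]
    have h1 : (g (nm z) : ℝ) * (g (nm (u * z')) : ℝ) = -1 := by
      rcases hgz with h1 | h1 <;> rcases hgu' with h2 | h2
      · exact absurd (h1.trans h2.symm) h.1
      · rw [h1, h2]; norm_num
      · rw [h1, h2]; norm_num
      · exact absurd (h1.trans h2.symm) h.1
    have h2 : (χ z.re : ℝ) * (χ z'.re : ℝ) = 1 := by
      rw [h.2]
      rcases hs1 z' hz' with h3 | h3 <;> rw [h3] <;> norm_num
    rw [h1, h2]
    linarith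
  · rw [if_neg h]
    have h0 : (1 - (g (nm z) : ℝ) * (g (nm (u * z')) : ℝ)) *
        (1 + (χ z.re : ℝ) * (χ z'.re : ℝ)) = 0 := by
      by_cases hgg : g (nm z) = g (nm (u * z'))
      · rw [hgg]
        have : (g (nm (u * z')) : ℝ) * (g (nm (u * z')) : ℝ) = 1 := by
          rcases hgu' with h | h <;> rw [h] <;> norm_num
        rw [this]
        ring
      · have hχ : χ z.re ≠ χ z'.re := fun h' => h ⟨hgg, h'⟩
        have : (χ z.re : ℝ) * (χ z'.re : ℝ) = -1 := by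
          rcases hs1 z hz with h1 | h1 <;> rcases hs1 z' hz' with h2 | h2
          · exact absurd (h1.trans h2.symm) hχ
          · rw [h1, h2]; norm_num
          · rw [h1, h2]; norm_num
          · exact absurd (h1.trans h2.symm) hχ
        rw [this]
        ring
    rw [h0]
    simp

end general

/-- the real part of a product, modulo `A` -/
lemma re_mul_chi {b m : ℤ} {A : ℕ} {χ : ℤ → ℤ} (hχ : IsChi A χ)
    (u z : Qd (b * A) (m * (A : ℤ) ^ 2)) : χ (u * z).re = χ u.re * χ z.re := by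
  rw [← hχ.mul]
  apply hχ.per
  refine ⟨-(m * A * u.im * z.im), ?_⟩
  rw [QuadraticAlgebra.re_mul]
  ring

/-- sums over all primitive elements and over those prime to `A` -/
lemma GG_eq {b m : ℤ} {A : ℕ} (X : ℝ) (F G : Qd (b * A) (m * (A : ℤ) ^ 2) → ℂ)
    (h0 : ∀ z, Int.gcd z.re A ≠ 1 → F z = 0) (h1 : ∀ z, Int.gcd z.re A = 1 → F z = G z) (k : ℤ) :
    DPG (pball (b * A) (m * (A : ℤ) ^ 2) X) F k = DPG (UU b m A A X) G k := by
  unfold DPG UU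
  rw [sum_filter]
  refine sum_congr rfl fun z _ => ?_
  by_cases h : Int.gcd z.re A = 1
  · rw [if_pos h, h1 z h]
  · rw [if_neg h, h0 z h, zero_mul]

/-- **NI1: the `T`-inequality with two functions, imaginary case.** -/
theorem tini {g : ℕ → ℤ} {b m : ℤ} {A : ℕ} {χ : ℤ → ℤ} (hg : Pm g) (hD : b ^ 2 < 4 * m)
    (hA : 1 ≤ A) : S_TINI g b m A χ := by
  classical
  intro hχ u₀ hu₀ hgu hχu Y K hY hK
  have hL' : (0 : ℤ) < (A : ℤ) ^ 2 := by positivity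
  have hDL : (b * A) ^ 2 < 4 * (m * (A : ℤ) ^ 2) := by
    have := mul_lt_mul_of_pos_right hD hL'
    calc (b * (A : ℤ)) ^ 2 = b ^ 2 * (A : ℤ) ^ 2 := by ring
      _ < 4 * m * (A : ℤ) ^ 2 := this
      _ = 4 * (m * (A : ℤ) ^ 2) := by ring
  have hs0 : ∀ z ∈ UU b m A A (Real.exp 1 * Y), z ≠ 0 := by
    intro z hz
    unfold UU at hz
    exact pball_ne hDL (mem_filter.1 hz).1
  have hs1 : ∀ z ∈ UU b m A A (Real.exp 1 * Y), χ z.re = 1 ∨ χ z.re = -1 := by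
    intro z hz
    unfold UU at hz
    exact hχ.val _ (mem_filter.1 hz).2
  have h10 : (1 : Qd (b * A) (m * (A : ℤ) ^ 2)) ≠ 0 := by
    rw [← one_le_nm hDL, nm_one]
  have hs2 : ∀ z ∈ UU b m A A (Real.exp 1 * Y), χ ((1 : Qd (b * A) (m * (A : ℤ) ^ 2)) * z).re =
      χ z.re := by
    intro z _
    rw [one_mul]
  have hs3 : ∀ z ∈ UU b m A A (Real.exp 1 * Y), χ (u₀ * z).re = χ z.re := by
    intro z _
    rw [re_mul_chi hχ, hχu, one_mul]
  have hlow1 := low_bound hg (DPG (UU b m A A (Real.exp 1 * Y)) (fun z => (bg Y z : ℂ)))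
    (DPG (UU b m A A (Real.exp 1 * Y)) (fun z => (((g (nm z) : ℝ) * bg Y z : ℝ) : ℂ))) hgu hK
  have hlow2 := low_bound hg
    (DPG (UU b m A A (Real.exp 1 * Y)) (fun z => (((χ z.re : ℝ) * bg Y z : ℝ) : ℂ)))
    (DPG (UU b m A A (Real.exp 1 * Y))
      (fun z => (((g (nm z) : ℝ) * ((χ z.re : ℝ) * bg Y z) : ℝ) : ℂ))) hgu hK
  rw [← rsum_eq hg hDL _ hs0 (bg Y) h10 K, ← rsum_eq hg hDL _ hs0 (bg Y) hu₀ K] at hlow1
  rw [← rsum_eq hg hDL _ hs0 (fun z => (χ z.re : ℝ) * bg Y z) h10 K,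
    ← rsum_eq hg hDL _ hs0 (fun z => (χ z.re : ℝ) * bg Y z) hu₀ K] at hlow2
  have hr1 := rsum_le (χ := χ) hg hDL _ hs0 hs1 hs2 hA hY K
  have hr2 := rsum_le (χ := χ) hg hDL _ hs0 hs1 hs3 hA hY K
  have hA0 : ‖DPG (UU b m A A (Real.exp 1 * Y)) (fun z => (bg Y z : ℂ)) 0‖ ^ 2 =
      (∑ z ∈ UU b m A A (Real.exp 1 * Y), bg Y z) ^ 2 := by
    have h1 : DPG (UU b m A A (Real.exp 1 * Y)) (fun z => (bg Y z : ℂ)) 0 =
        ((∑ z ∈ UU b m A A (Real.exp 1 * Y), bg Y z : ℝ) : ℂ) := by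
      unfold DPG
      simp
    rw [h1, Complex.norm_real, Real.norm_eq_abs, sq_abs]
  rw [hA0] at hlow1
  have hG0 : ∀ k, Pool.Agent.H648.Q2.I.GG (t := b * A) (c := m * (A : ℤ) ^ 2)
      (fun z => g (nm z) * χ z.re ^ 2) Y k = DPG (UU b m A A (Real.exp 1 * Y))
        (fun z => (((g (nm z) : ℝ) * bg Y z : ℝ) : ℂ)) k := by
    intro k
    unfold Pool.Agent.H648.Q2.I.GG
    refine GG_eq _ _ _ (fun z hz => ?_) (fun z hz => ?_) k
    · beta_reduce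
      rw [hχ.zero _ hz]
      simp
    · have h1 : χ z.re ^ 2 = 1 := by
        rcases hχ.val _ hz with h | h <;> rw [h] <;> norm_num
      beta_reduce
      rw [h1]
      push_cast
      ring
  have hG1 : ∀ k, Pool.Agent.H648.Q2.I.GG (t := b * A) (c := m * (A : ℤ) ^ 2)
      (fun z => g (nm z) * χ z.re) Y k = DPG (UU b m A A (Real.exp 1 * Y))
        (fun z => (((g (nm z) : ℝ) * ((χ z.re : ℝ) * bg Y z) : ℝ) : ℂ)) k := by
    intro k
    unfold Pool.Agent.H648.Q2.I.GG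
    refine GG_eq _ _ _ (fun z hz => ?_) (fun z hz => ?_) k
    · beta_reduce
      rw [hχ.zero _ hz]
      simp
    · push_cast
      ring
  simp only [hG0, hG1]
  unfold FSI
  have hnn : 0 ≤ ‖DPG (UU b m A A (Real.exp 1 * Y))
      (fun z => (((χ z.re : ℝ) * bg Y z : ℝ) : ℂ)) 0‖ ^ 2 := by positivity
  have hfin := add_le_add hlow1 hlow2
  have hr := add_le_add hr1 hr2
  linarith

end Pool.Agent.H190.Q648
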